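import Pool.Agent.H69.LQ.Lib
import Pool.Agent.H69.LQ.Targets1
import Pool.Agent.H80.LQ.V2

/-!
# Row VB of the board lq1_modules: the missing part of the unit ball
-/

set_option autoImplicit false

open MeasureTheory Metric Set
open scoped ENNReal
open Pool.Agent.H85.LK (E adm lam Ann)
open Pool.Agent.H69.LQ

namespace Pool.Agent.H90.LQ1

theorem pf_VB (hMP : T_MP) (_hMO : T_MO) : T_VB := by
  intro N Ω a b R hN ha hb _ hO hE
  obtain ⟨-, har, harN, hpol⟩ := hMP N hN
  have hN0 : (0 : ℝ) < N := by exact_mod_cast (by omega : 0 < N)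
  have hOm : MeasurableSet Ω := hO.measurableSet
  have hBm : MeasurableSet (ball (0 : E N) 1) := measurableSet_ball
  obtain ⟨D, hD⟩ : ∃ D : Set (E N), D = ball (0 : E N) 1 \ Ω := ⟨_, rfl⟩
  have hDm : MeasurableSet D := by rw [hD]; exact hBm.diff hOm
  have hDfin : volume D ≠ ⊤ := by
    rw [hD]
    exact ((measure_mono sdiff_subset).trans_lt measure_ball_lt_top).ne
  have hg : Integrable (D.indicator fun _ : E N => (1 : ℝ)) :=
    (integrable_indicator_iff hDm).2 (integrableOn_const hDfin)
  obtain ⟨-, h2, h3⟩ := hpol _ hg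
  have h4 : ∫ x, D.indicator (fun _ : E N => (1 : ℝ)) x = volume.real D := by
    rw [integral_indicator hDm, setIntegral_const, smul_eq_mul, mul_one]
  rw [h4] at h3
  have hG : BM fun θ : Sp N => |R θ ^ N - 1| / N := by
    refine ⟨(((hE.meas.pow_const N).sub_const 1).norm).div_const _, (b ^ N + 1) / N, fun θ => ?_⟩
    have h5 : 0 < R θ := ha.trans (hE.lo θ)
    have h6 : R θ ^ N ≤ b ^ N := pow_le_pow_left₀ h5.le (hE.hi θ) N
    have h7 : 0 < R θ ^ N := pow_pos h5 N
    rw [abs_div, abs_abs, abs_of_pos hN0]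
    refine div_le_div_of_nonneg_right ?_ hN0.le
    rw [abs_le]
    constructor <;> linarith
  have hmono : av (fun θ : Sp N => ∫ r in Ioi (0 : ℝ),
      r ^ (N - 1) * D.indicator (fun _ : E N => (1 : ℝ)) (r • (θ : E N))) ≤
      av fun θ : Sp N => |R θ ^ N - 1| / N := by
    have := (hMP N hN).1
    refine integral_mono h2 hG.integrable fun θ => ?_
    refine Pool.Agent.H80.LQ.ray_int N hN (R θ) (ha.trans (hE.lo θ)) _ ?_ ?_
    · intro r hr
      exact mul_nonneg (pow_nonneg hr.le _) (indicator_nonneg (fun _ _ => zero_le_one) _)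
    · intro r hr
      by_cases hm : r • (θ : E N) ∈ D
      · have h5 : r ∈ Ico (R θ) 1 := by
          rw [hD] at hm
          refine ⟨?_, ?_⟩
          · by_contra h6
            exact hm.2 (hE.ins θ r hr.le (not_le.1 h6))
          · have h6 := hm.1
            rw [mem_ball_zero_iff, norm_smul_sp, abs_of_pos hr] at h6
            exact h6
        rw [indicator_of_mem hm, indicator_of_mem h5, mul_one]
      · rw [indicator_of_notMem hm, mul_zero]
        exact indicator_nonneg (fun s hs => pow_nonneg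
          ((ha.trans (hE.lo θ)).le.trans hs.1) _) _
  have hav : av (fun θ : Sp N => |R θ ^ N - 1| / N) = av (fun θ : Sp N => |R θ ^ N - 1|) / N := by
    have h5 : (fun θ : Sp N => |R θ ^ N - 1| / N) = fun θ : Sp N => |R θ ^ N - 1| * (N : ℝ)⁻¹ := by
      funext θ
      rw [div_eq_mul_inv]
    rw [h5, av_mul_const, div_eq_mul_inv]
  rw [hav] at hmono
  have h8 : volume.real D ≤ volume.real (ball (0 : E N) 1) * av fun θ : Sp N => |R θ ^ N - 1| := by
    rw [h3, harN]
    calc (N : ℝ) * volume.real (ball (0 : E N) 1) * av (fun θ : Sp N => ∫ r in Ioi (0 : ℝ),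
          r ^ (N - 1) * D.indicator (fun _ : E N => (1 : ℝ)) (r • (θ : E N)))
        ≤ (N : ℝ) * volume.real (ball (0 : E N) 1) *
          (av (fun θ : Sp N => |R θ ^ N - 1|) / N) :=
          mul_le_mul_of_nonneg_left hmono (by positivity)
      _ = _ := by field_simp
  rw [← hD]
  exact h8

end Pool.Agent.H90.LQ1
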